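import Mathlib

/-!
# MP_9de622_gt: substantial 0-tight smooth 3-spheres in `ℝ⁵`, `ℝ⁶` and `ℝ⁷`

The map `S³ → ℝ⁷`, `x ↦ (x, h(x))`, with `h : S³ → S²` the Hopf map, is a smooth substantial 0-tight
embedding; the same holds for its first `N` coordinates, `4 ≤ N ≤ 7`.
-/

set_option autoImplicit false

namespace Pool.Agent.Results.MP_9de622_gt.HopfMap

open Real Set

lemma polar (x y t : ℝ) : ∃ θ ∈ Icc (-π) π,
    x = √(x ^ 2 + y ^ 2) * cos (t + θ) ∧ y = √(x ^ 2 + y ^ 2) * sin (t + θ) := by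
  let z : ℂ := ⟨x * cos t + y * sin t, y * cos t - x * sin t⟩
  have hn : ‖z‖ = √(x ^ 2 + y ^ 2) := by
    rw [Complex.norm_def, Complex.normSq_mk]; congr 1
    linear_combination (x ^ 2 + y ^ 2) * sin_sq_add_cos_sq t
  have h1 : ‖z‖ * cos z.arg = x * cos t + y * sin t := Complex.norm_mul_cos_arg z
  have h2 : ‖z‖ * sin z.arg = y * cos t - x * sin t := Complex.norm_mul_sin_arg z
  refine ⟨z.arg, ⟨(Complex.neg_pi_lt_arg z).le, Complex.arg_le_pi z⟩, ?_, ?_⟩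
  · rw [← hn, cos_add]
    linear_combination (-cos t) * h1 + sin t * h2 - x * sin_sq_add_cos_sq t
  · rw [← hn, sin_add]
    linear_combination (-sin t) * h1 - cos t * h2 - y * sin_sq_add_cos_sq t

def D (a b v c : ℝ) : Set (ℝ × ℝ × ℝ) := {z | z.1 ∈ Icc 0 1 ∧ z.2.1 ∈ Icc (-π) π ∧
  z.2.2 ∈ Icc (-π) π ∧ c ≤ a * √z.1 * cos z.2.1 + b * √(1 - z.1) * cos z.2.2 + v * z.1}

lemma cos_shrink {θ t : ℝ} (h : θ ∈ Icc (-π) π) (h0 : 0 ≤ t) (h1 : t ≤ 1) :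
    t * θ ∈ Icc (-π) π ∧ cos θ ≤ cos (t * θ) := by
  have ha : |θ| ≤ π := abs_le.2 h
  have hb : |t * θ| ≤ |θ| := by rw [abs_mul, abs_of_nonneg h0]; nlinarith [abs_nonneg θ]
  refine ⟨abs_le.1 (hb.trans ha), ?_⟩
  rw [← cos_abs θ, ← cos_abs (t * θ)]
  exact cos_le_cos_of_nonneg_of_le_pi (abs_nonneg _) ha hb

lemma D_pre {a b v c : ℝ} (ha : 0 ≤ a) (hb : 0 ≤ b) : IsPreconnected (D a b v c) := by
  rcases (D a b v c).eq_empty_or_nonempty with h | h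
  · rw [h]; exact isPreconnected_empty
  have j1 : ∀ z ∈ D a b v c, JoinedIn (D a b v c) (z.1, 0, 0) z := by
    rintro ⟨s, θ, φ⟩ ⟨h1, h2, h3, h4⟩
    refine JoinedIn.of_segment_subset ?_
    rintro _ ⟨t', t, ht', ht, htt, rfl⟩
    obtain ⟨a1, a2⟩ := cos_shrink h2 ht (by linarith)
    obtain ⟨b1, b2⟩ := cos_shrink h3 ht (by linarith)
    have e : t' * s + t * s = s := by rw [← add_mul, htt, one_mul]
    simp only [D, mem_ofPred_eq, Prod.smul_mk, smul_eq_mul, Prod.mk_add_mk, mul_zero, zero_add, e]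
      at *
    refine ⟨h1, a1, b1, h4.trans ?_⟩
    gcongr
  refine (isPathConnected_iff.2 ⟨h, fun z hz w hw => (j1 z hz).symm.trans
    (JoinedIn.trans (JoinedIn.of_segment_subset ?_) (j1 w hw))⟩).isConnected.isPreconnected
  have hz' := (j1 z hz).source_mem
  have hw' := (j1 w hw).source_mem
  rintro _ ⟨t, t', ht, ht', htt, rfl⟩
  simp only [D, mem_ofPred_eq, Prod.smul_mk, smul_eq_mul, Prod.mk_add_mk, mul_zero, add_zero,
    cos_zero, mul_one] at *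
  have c1 := strictConcaveOn_sqrt.concaveOn.2 (x := z.1) (y := w.1) hz'.1.1 hw'.1.1 ht ht' htt
  have c2 := strictConcaveOn_sqrt.concaveOn.2 (x := 1 - z.1) (y := 1 - w.1)
    (sub_nonneg.2 hz'.1.2) (sub_nonneg.2 hw'.1.2) ht ht' htt
  simp only [smul_eq_mul] at c1 c2
  rw [show t * (1 - z.1) + t' * (1 - w.1) = 1 - (t * z.1 + t' * w.1) by linear_combination htt]
    at c2
  refine ⟨convex_Icc (𝕜 := ℝ) 0 1 hz'.1 hw'.1 ht ht' htt, hz'.2.1, hz'.2.1, ?_⟩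
  have d1 := mul_le_mul_of_nonneg_left c1 ha
  have d2 := mul_le_mul_of_nonneg_left c2 hb
  have d3 := mul_le_mul_of_nonneg_left hz'.2.2.2 ht
  have d4 := mul_le_mul_of_nonneg_left hw'.2.2.2 ht'
  have : c = t * c + t' * c := by rw [← add_mul, htt, one_mul]
  nlinarith

def F (x : Fin 4 → ℝ) : Fin 5 → ℝ := ![x 0, x 1, x 2, x 3, x 0 ^ 2 + x 1 ^ 2]

lemma F_smooth : ContDiff ℝ ((⊤ : ℕ∞) : WithTop ℕ∞) F := by
  refine contDiff_pi.2 fun i => ?_
  fin_cases i <;> simp only [F] <;> simp <;> fun_prop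

lemma tight5 (v : Fin 5 → ℝ) (c : ℝ) : IsPreconnected {x : Fin 4 → ℝ |
    ∑ i, x i ^ 2 = 1 ∧ c ≤ ∑ j, v j * F x j} := by
  obtain ⟨t, -, t0, t1⟩ := polar (v 0) (v 1) 0
  obtain ⟨u, -, u0, u1⟩ := polar (v 2) (v 3) 0
  generalize ha : √(v 0 ^ 2 + v 1 ^ 2) = a at *
  generalize hb : √(v 2 ^ 2 + v 3 ^ 2) = b at *
  rw [zero_add] at t0 t1 u0 u1
  let G : ℝ × ℝ × ℝ → Fin 4 → ℝ := fun z => ![√z.1 * cos (t + z.2.1), √z.1 * sin (t + z.2.1),
    √(1 - z.1) * cos (u + z.2.2), √(1 - z.1) * sin (u + z.2.2)]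
  have hG : Continuous G := by
    refine continuous_pi fun i => ?_
    fin_cases i <;> simp only [G] <;> simp <;> fun_prop
  have key : ∀ z : ℝ × ℝ × ℝ, z.1 ∈ Icc (0 : ℝ) 1 → ∑ i, G z i ^ 2 = 1 ∧ ∑ j, v j * F (G z) j =
      a * √z.1 * cos z.2.1 + b * √(1 - z.1) * cos z.2.2 + v 4 * z.1 := by
    rintro ⟨s, θ, φ⟩ hs
    have e1 := sq_sqrt hs.1
    have e2 := sq_sqrt (sub_nonneg.2 hs.2)
    have e3 := sin_sq_add_cos_sq (t + θ)
    have e4 := sin_sq_add_cos_sq (u + φ)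
    have e5 : cos θ = cos (t + θ) * cos t + sin (t + θ) * sin t := by rw [← cos_sub]; simp
    have e6 : cos φ = cos (u + φ) * cos u + sin (u + φ) * sin u := by rw [← cos_sub]; simp
    simp only [Fin.sum_univ_succ, G, F] at *
    simp
    constructor
    · linear_combination √s ^ 2 * e3 + √(1 - s) ^ 2 * e4 + e1 + e2
    · rw [e5, e6]
      have t0' : v 0 = a * cos t := t0
      have t1' : v 1 = a * sin t := t1
      have u0' : v 2 = b * cos u := u0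
      have u1' : v 3 = b * sin u := u1
      linear_combination (√s * cos (t + θ)) * t0' + (√s * sin (t + θ)) * t1'
        + (√(1 - s) * cos (u + φ)) * u0' + (√(1 - s) * sin (u + φ)) * u1'
        + v 4 * √s ^ 2 * e3 + v 4 * e1
  convert (D_pre (a := a) (b := b) (v := v 4) (c := c) (ha ▸ sqrt_nonneg _)
    (hb ▸ sqrt_nonneg _)).image G hG.continuousOn
  ext x
  constructor
  · rintro ⟨h1, h2⟩
    obtain ⟨θ, hθ, x0, x1⟩ := polar (x 0) (x 1) t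
    obtain ⟨φ, hφ, x2, x3⟩ := polar (x 2) (x 3) u
    have h1' : x 2 ^ 2 + x 3 ^ 2 = 1 - (x 0 ^ 2 + x 1 ^ 2) := by
      simp only [Fin.sum_univ_four] at h1; linarith
    have hs : x 0 ^ 2 + x 1 ^ 2 ∈ Icc (0 : ℝ) 1 :=
      ⟨by positivity, by nlinarith [sq_nonneg (x 2), sq_nonneg (x 3)]⟩
    have hx : G (x 0 ^ 2 + x 1 ^ 2, θ, φ) = x := by
      rw [h1'] at x2 x3
      ext i; fin_cases i
      exacts [x0.symm, x1.symm, x2.symm, x3.symm]
    refine ⟨_, ⟨hs, hθ, hφ, ?_⟩, hx⟩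
    rw [← (key _ hs).2, hx]; exact h2
  · rintro ⟨z, ⟨h1, -, -, h2⟩, rfl⟩
    exact ⟨(key z h1).1, (key z h1).2 ▸ h2⟩

/-- The map `x ↦ (x, h(x))` with the three components of the Hopf map, and its first `N`
coordinates. -/
def F7 (x : Fin 4 → ℝ) : Fin 7 → ℝ :=
  ![x 0, x 1, x 2, x 3, x 0 ^ 2 + x 1 ^ 2 - x 2 ^ 2 - x 3 ^ 2, 2 * (x 0 * x 2 + x 1 * x 3),
    2 * (x 1 * x 2 - x 0 * x 3)]

lemma F7_smooth : ContDiff ℝ ((⊤ : ℕ∞) : WithTop ℕ∞) F7 := by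
  refine contDiff_pi.2 fun i => ?_
  fin_cases i <;> simp only [F7] <;> simp <;> fun_prop

/-- the unitary rotation with first column `(p, q₁ + i q₂)` -/
def A (p q r : ℝ) (x : Fin 4 → ℝ) : Fin 4 → ℝ :=
  ![p * x 0 - q * x 2 - r * x 3, p * x 1 + r * x 2 - q * x 3, q * x 0 - r * x 1 + p * x 2,
    r * x 0 + q * x 1 + p * x 3]

/-- its inverse -/
def A' (p q r : ℝ) (x : Fin 4 → ℝ) : Fin 4 → ℝ :=
  ![p * x 0 + q * x 2 + r * x 3, p * x 1 - r * x 2 + q * x 3, -q * x 0 + r * x 1 + p * x 2,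
    -r * x 0 - q * x 1 + p * x 3]

lemma A_A' {p q r : ℝ} (h : p ^ 2 + q ^ 2 + r ^ 2 = 1) (x : Fin 4 → ℝ) : A p q r (A' p q r x) = x := by
  ext i
  fin_cases i <;> simp [A, A']
  · linear_combination x 0 * h
  · linear_combination x 1 * h
  · linear_combination x 2 * h
  · linear_combination x 3 * h

lemma A_norm {p q r : ℝ} (h : p ^ 2 + q ^ 2 + r ^ 2 = 1) (x : Fin 4 → ℝ) :
    ∑ i, A p q r x i ^ 2 = ∑ i, x i ^ 2 := by
  simp only [Fin.sum_univ_four, A]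
  simp
  linear_combination (x 0 ^ 2 + x 1 ^ 2 + x 2 ^ 2 + x 3 ^ 2) * h

lemma A'_norm {p q r : ℝ} (h : p ^ 2 + q ^ 2 + r ^ 2 = 1) (x : Fin 4 → ℝ) :
    ∑ i, A' p q r x i ^ 2 = ∑ i, x i ^ 2 := by
  simp only [Fin.sum_univ_four, A']
  simp
  linear_combination (x 0 ^ 2 + x 1 ^ 2 + x 2 ^ 2 + x 3 ^ 2) * h

/-- the Hopf map is onto `S²` -/
lemma hopf_surj {a b c : ℝ} (h : a ^ 2 + b ^ 2 + c ^ 2 = 1) : ∃ p q r : ℝ,
    p ^ 2 + q ^ 2 + r ^ 2 = 1 ∧ a = p ^ 2 - q ^ 2 - r ^ 2 ∧ b = 2 * p * q ∧ c = -(2 * p * r) := by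
  have ha : -1 ≤ a := by nlinarith [sq_nonneg b, sq_nonneg c]
  by_cases h1 : a = -1
  · subst h1
    have hb : b = 0 := by nlinarith [sq_nonneg b, sq_nonneg c]
    have hc : c = 0 := by nlinarith [sq_nonneg b, sq_nonneg c]
    exact ⟨0, 1, 0, by norm_num, by norm_num, by rw [hb]; norm_num, by rw [hc]; norm_num⟩
  · have h2 : 0 < (1 + a) / 2 := by
      have : -1 < a := lt_of_le_of_ne ha (Ne.symm h1)
      linarith
    set p := √((1 + a) / 2) with hp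
    have hp0 : 0 < p := Real.sqrt_pos.2 h2
    have hp2 : p ^ 2 = (1 + a) / 2 := Real.sq_sqrt h2.le
    have e : (b / (2 * p)) ^ 2 + (-c / (2 * p)) ^ 2 = (1 - a) / 2 := by
      have : (b / (2 * p)) ^ 2 + (-c / (2 * p)) ^ 2 = (b ^ 2 + c ^ 2) / (4 * p ^ 2) := by
        field_simp; ring
      rw [this, hp2, div_eq_iff (by linarith)]
      nlinarith
    refine ⟨p, b / (2 * p), -c / (2 * p), by linarith, by linarith, by field_simp,
      by field_simp⟩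

lemma tight7 (v : Fin 7 → ℝ) (c : ℝ) : IsPreconnected {x : Fin 4 → ℝ |
    ∑ i, x i ^ 2 = 1 ∧ c ≤ ∑ j, v j * F7 x j} := by
  set r0 := √(v 4 ^ 2 + v 5 ^ 2 + v 6 ^ 2) with hr0
  have hr2 : r0 ^ 2 = v 4 ^ 2 + v 5 ^ 2 + v 6 ^ 2 := Real.sq_sqrt (by positivity)
  obtain ⟨p, q, r, h1, h4, h5, h6⟩ : ∃ p q r : ℝ, p ^ 2 + q ^ 2 + r ^ 2 = 1 ∧
      v 4 = r0 * (p ^ 2 - q ^ 2 - r ^ 2) ∧ v 5 = r0 * (2 * p * q) ∧ v 6 = r0 * (-(2 * p * r)) := by
    by_cases h0 : r0 = 0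
    · rw [h0] at hr2
      refine ⟨1, 0, 0, by norm_num, ?_, ?_, ?_⟩ <;> rw [h0] <;>
        nlinarith [sq_nonneg (v 4), sq_nonneg (v 5), sq_nonneg (v 6)]
    · obtain ⟨p, q, r, h1, h2, h3, h4⟩ := hopf_surj (a := v 4 / r0) (b := v 5 / r0)
        (c := v 6 / r0) (by field_simp; linarith)
      refine ⟨p, q, r, h1, ?_, ?_, ?_⟩
      · rw [← h2]; field_simp
      · rw [← h3]; field_simp
      · rw [← h4]; field_simp
  let v' : Fin 5 → ℝ := ![p * v 0 + q * v 2 + r * v 3, p * v 1 - r * v 2 + q * v 3,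
    -q * v 0 + r * v 1 + p * v 2, -r * v 0 - q * v 1 + p * v 3, 2 * r0]
  have hcont : Continuous (A p q r) := by
    refine continuous_pi fun i => ?_
    fin_cases i <;> simp only [A] <;> simp <;> fun_prop
  have key : ∀ x : Fin 4 → ℝ, ∑ i, x i ^ 2 = 1 →
      ∑ j, v j * F7 (A p q r x) j = ∑ j, v' j * F x j - r0 := by
    intro x hx
    rw [Fin.sum_univ_four] at hx
    have e7 : ∑ j, v j * F7 (A p q r x) j = v 0 * A p q r x 0 + v 1 * A p q r x 1 +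
        v 2 * A p q r x 2 + v 3 * A p q r x 3 +
        v 4 * (A p q r x 0 ^ 2 + A p q r x 1 ^ 2 - A p q r x 2 ^ 2 - A p q r x 3 ^ 2) +
        v 5 * (2 * (A p q r x 0 * A p q r x 2 + A p q r x 1 * A p q r x 3)) +
        v 6 * (2 * (A p q r x 1 * A p q r x 2 - A p q r x 0 * A p q r x 3)) := by
      rw [Fin.sum_univ_seven]; rfl
    have e5 : ∑ j, v' j * F x j = v' 0 * x 0 + v' 1 * x 1 + v' 2 * x 2 + v' 3 * x 3 +
        v' 4 * (x 0 ^ 2 + x 1 ^ 2) := by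
      rw [Fin.sum_univ_five]; rfl
    have a0 : A p q r x 0 = p * x 0 - q * x 2 - r * x 3 := rfl
    have a1 : A p q r x 1 = p * x 1 + r * x 2 - q * x 3 := rfl
    have a2 : A p q r x 2 = q * x 0 - r * x 1 + p * x 2 := rfl
    have a3 : A p q r x 3 = r * x 0 + q * x 1 + p * x 3 := rfl
    have b0 : v' 0 = p * v 0 + q * v 2 + r * v 3 := rfl
    have b1 : v' 1 = p * v 1 - r * v 2 + q * v 3 := rfl
    have b2 : v' 2 = -q * v 0 + r * v 1 + p * v 2 := rfl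
    have b3 : v' 3 = -r * v 0 - q * v 1 + p * v 3 := rfl
    have b4 : v' 4 = 2 * r0 := rfl
    rw [e7, e5, a0, a1, a2, a3, b0, b1, b2, b3, b4, h4, h5, h6]
    linear_combination r0 * (p ^ 2 + q ^ 2 + r ^ 2 + 1) * (x 0 ^ 2 + x 1 ^ 2 - x 2 ^ 2 - x 3 ^ 2) *
      h1 - r0 * hx
  have himg : {x : Fin 4 → ℝ | ∑ i, x i ^ 2 = 1 ∧ c ≤ ∑ j, v j * F7 x j} =
      A p q r '' {x : Fin 4 → ℝ | ∑ i, x i ^ 2 = 1 ∧ c + r0 ≤ ∑ j, v' j * F x j} := by
    ext x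
    constructor
    · rintro ⟨hx, hc⟩
      have hn : ∑ i, A' p q r x i ^ 2 = 1 := by rw [A'_norm h1, hx]
      refine ⟨A' p q r x, ⟨hn, ?_⟩, A_A' h1 x⟩
      have := key _ hn
      rw [A_A' h1] at this
      linarith
    · rintro ⟨y, ⟨hy, hc⟩, rfl⟩
      refine ⟨by rw [A_norm h1, hy], ?_⟩
      rw [key y hy]
      linarith
  rw [himg]
  exact (tight5 v' (c + r0)).image _ hcont.continuousOn

/-- The first `N` coordinates of `F7`. -/
def FN (N : ℕ) (hN : N ≤ 7) (x : Fin 4 → ℝ) : Fin N → ℝ := fun j => F7 x (Fin.castLE hN j)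

lemma FN_smooth (N : ℕ) (hN : N ≤ 7) : ContDiff ℝ ((⊤ : ℕ∞) : WithTop ℕ∞) (FN N hN) :=
  contDiff_pi.2 fun j => contDiff_pi.1 F7_smooth (Fin.castLE hN j)

/-- extension by zero of a covector -/
def ext0 {N : ℕ} (v : Fin N → ℝ) (j : Fin 7) : ℝ := if h : j.val < N then v ⟨j.val, h⟩ else 0

lemma ext0_sum {N : ℕ} (hN : N ≤ 7) (v : Fin N → ℝ) (x : Fin 4 → ℝ) :
    ∑ j, v j * FN N hN x j = ∑ j, ext0 v j * F7 x j := by
  have hinj : Function.Injective (Fin.castLE hN) := Fin.castLE_injective hN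
  rw [← Finset.sum_subset (s₁ := Finset.univ.map ⟨Fin.castLE hN, hinj⟩) (Finset.subset_univ _)]
  · rw [Finset.sum_map]
    refine Finset.sum_congr rfl fun j _ => ?_
    have : ext0 v (Fin.castLE hN j) = v j := by simp [ext0]
    simp only [Function.Embedding.coeFn_mk]
    rw [this]; rfl
  · intro j _ hj
    have : ¬ j.val < N := by
      intro h
      exact hj (Finset.mem_map.2 ⟨⟨j.val, h⟩, Finset.mem_univ _, by ext; rfl⟩)
    simp [ext0, this]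

lemma subst7 (v : Fin 7 → ℝ) (c : ℝ)
    (h : ∀ x : Fin 4 → ℝ, ∑ i, x i ^ 2 = 1 → ∑ j, v j * F7 x j = c) : v = 0 := by
  have hs : (√2 / 2) ^ 2 = (1 / 2 : ℝ) := by
    rw [div_pow, Real.sq_sqrt (by norm_num)]; norm_num
  have a0 := h ![1, 0, 0, 0] (by simp [Fin.sum_univ_four])
  have a1 := h ![-1, 0, 0, 0] (by simp [Fin.sum_univ_four])
  have a2 := h ![0, 1, 0, 0] (by simp [Fin.sum_univ_four])
  have a2' := h ![0, -1, 0, 0] (by simp [Fin.sum_univ_four])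
  have a3 := h ![0, 0, 1, 0] (by simp [Fin.sum_univ_four])
  have a4 := h ![0, 0, -1, 0] (by simp [Fin.sum_univ_four])
  have a5 := h ![0, 0, 0, 1] (by simp [Fin.sum_univ_four])
  have a5' := h ![0, 0, 0, -1] (by simp [Fin.sum_univ_four])
  have a6 := h ![√2 / 2, 0, √2 / 2, 0] (by simp [Fin.sum_univ_four, hs]; norm_num)
  have a7 := h ![0, √2 / 2, √2 / 2, 0] (by simp [Fin.sum_univ_four, hs]; norm_num)
  simp [Fin.sum_univ_seven, F7] at a0 a1 a2 a2' a3 a4 a5 a5' a6 a7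
  have hm : √2 / 2 * (√2 / 2) = (1 / 2 : ℝ) := by rw [← sq]; exact hs
  rw [hm] at a6 a7
  have z0 : v 0 = 0 := by linarith
  have z1 : v 1 = 0 := by linarith
  have z2 : v 2 = 0 := by linarith
  have z3 : v 3 = 0 := by linarith
  have z4 : v 4 = 0 := by linarith
  have zc : c = 0 := by linarith
  rw [z0, z2, zc] at a6
  rw [z1, z2, zc] at a7
  have z5 : v 5 = 0 := by linarith
  have z6 : v 6 = 0 := by linarith
  ext i
  fin_cases i
  exacts [z0, z1, z2, z3, z4, z5, z6]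

/-- For every `N` with `4 ≤ N ≤ 7` (so in particular for `N = 5, 6, 7`) there is a smooth embedding
of `S³` into `ℝ^N` that is 0-tight and substantial: a smooth map whose restriction to the unit
sphere is injective and has injective differential, such that the preimage in the sphere of every
closed half-space is connected or empty and whose image lies in no affine hyperplane. -/
theorem result (N : ℕ) (hN4 : 4 ≤ N) (hN7 : N ≤ 7) :
    ∃ f : (Fin 4 → ℝ) → (Fin N → ℝ),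
      ContDiff ℝ ((⊤ : ℕ∞) : WithTop ℕ∞) f ∧
      Set.InjOn f {x : Fin 4 → ℝ | ∑ i, x i ^ 2 = 1} ∧
      (∀ x : Fin 4 → ℝ, ∑ i, x i ^ 2 = 1 →
        ∀ w : Fin 4 → ℝ, ∑ i, x i * w i = 0 → fderiv ℝ f x w = 0 → w = 0) ∧
      (∀ v : Fin N → ℝ, ∀ c : ℝ,
        IsPreconnected {x : Fin 4 → ℝ |
          ∑ i, x i ^ 2 = 1 ∧ c ≤ ∑ j, v j * f x j}) ∧
      ¬ ∃ v : Fin N → ℝ, v ≠ 0 ∧ ∃ c : ℝ,
        ∀ x : Fin 4 → ℝ, ∑ i, x i ^ 2 = 1 → ∑ j, v j * f x j = c := by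
  have hcoord : ∀ (x : Fin 4 → ℝ) (i : Fin 4), FN N hN7 x (Fin.castLE hN4 i) = x i := by
    intro x i
    fin_cases i <;> rfl
  refine ⟨FN N hN7, FN_smooth N hN7, fun x _ y _ h => ?_, fun x _ w _ h => ?_, fun v c => ?_, ?_⟩
  · ext i
    rw [← hcoord x i, ← hcoord y i, h]
  · ext i
    have hd := ((FN_smooth N hN7).differentiable (by simp) x).hasFDerivAt
    have h1 := hasFDerivAt_pi'.1 hd (Fin.castLE hN4 i)
    have h2 : (fun x => FN N hN7 x (Fin.castLE hN4 i)) = fun x => x i := by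
      ext x; exact hcoord x i
    rw [h2] at h1
    have h3 := congrArg (· w) (h1.unique (hasFDerivAt_apply i x))
    simpa [h] using h3.symm
  · simp only [ext0_sum hN7]
    exact tight7 (ext0 v) c
  · rintro ⟨v, hv, c, h⟩
    simp only [ext0_sum hN7] at h
    have := subst7 _ c h
    apply hv
    ext j
    have h1 := congrFun this (Fin.castLE hN7 j)
    simpa [ext0] using h1

end Pool.Agent.Results.MP_9de622_gt.HopfMap
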